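import Pool.Agent.X276.Spr.E2

/-!
# A group of spread exactly one

The group is the group `Spr.K` of all order automorphisms of the real line that are piecewise
linear with slopes powers of two, dyadic breakpoints and dyadic constants, and that for some
integer `a` are `t ↦ t + a` near minus infinity and `t ↦ t - a` near infinity.
-/

namespace Pool.Agent.Results.MP_317377_al.SpreadOne

open Filter Topology Set Spr

/-- `k`-spread: for any `k` nontrivial elements (repetitions allowed) one element `y` generates the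
group together with each of them. -/
def IsSpread (G : Type*) [Group G] (k : ℕ) : Prop :=
  ∀ x : Fin k → G, (∀ i, x i ≠ 1) → ∃ y : G, ∀ i, Subgroup.closure {x i, y} = ⊤

/-- The spread of a group: the largest `k` for which it is `k`-spread, infinity if there is none. -/
noncomputable def spread (G : Type*) [Group G] : ℕ∞ := ⨆ (k : ℕ) (_ : IsSpread G k), (k : ℕ∞)

theorem bump : ∃ a ∈ P, Supp a (-1) 2 ∧ ∀ t, -1 < t → t < 2 → t < a t := by
  obtain ⟨q, h1, h2, h3, h4, h5, h6⟩ := four_exists (aff 1 1) (aff (-1) 1) (aff (-1) 1) (-1) 0 2 2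
    (by norm_num) (by norm_num) (by norm_num) (by rw [aff1]; norm_num)
    (by rw [aff1, affm1]; norm_num) rfl (by rw [affm1]; norm_num)
  refine ⟨q, h6 (aff_mem _ Dy.one) (aff_mem _ Dy.one) (aff_mem _ Dy.one) Dy.one.neg Dy.zero Dy.two
    Dy.two, ⟨h1, h5⟩, fun t ht ht' => ?_⟩
  rcases le_total t 0 with h | h
  · rw [h2 t ht.le h, aff1]; linarith
  · rw [h3 t h ht'.le, affm1]; linarith

theorem affinv (c t : ℝ) : (aff 0 c)⁻¹ t = t - c := by
  rw [inv_eq_iff, aff0]; ring

theorem moves (p : ℝ) : ∃ f ∈ K, f p ≠ p := by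
  obtain ⟨a, aP, as, am⟩ := bump
  refine ⟨aff 0 ⌊p⌋ * a * (aff 0 ⌊p⌋)⁻¹, ⟨P.mul_mem (P.mul_mem (aff_mem _ (Dy.int _)) aP)
    (P.inv_mem (aff_mem _ (Dy.int _))), 0, ?_⟩, ?_⟩
  · simpa using (as.conj (aff 0 ⌊p⌋)).tr
  · rw [mul_ap, mul_ap, affinv, aff0]
    have h1 := am (p - ⌊p⌋) (by linarith [Int.floor_le p]) (by linarith [Int.lt_floor_add_one p])
    intro h2
    linarith

theorem fixed_pt {y : G} {b : ℝ} (hb : Tr y b) : ∃ p, y p = p := by
  obtain ⟨R, h1, h2⟩ := hb
  have hc : Continuous (fun t => y t - t) := (OrderIso.continuous y).sub continuous_id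
  have e1 : y (-R) - -R = b := by rw [h1 _ le_rfl]; ring
  have e2 : y R - R = -b := by rw [h2 _ le_rfl]; ring
  have h3 : (0 : ℝ) ∈ Set.range (fun t => y t - t) := by
    rcases le_total b 0 with h | h
    · exact mem_range_of_exists_le_of_exists_ge hc ⟨-R, by simpa only [e1] using h⟩
        ⟨R, by simp only [e2]; linarith⟩
    · exact mem_range_of_exists_le_of_exists_ge hc ⟨R, by simp only [e2]; linarith⟩
        ⟨-R, by simpa only [e1] using h⟩
  obtain ⟨p, hp⟩ := h3
  exact ⟨p, sub_eq_zero.1 hp⟩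

theorem not_two : ∃ x1 ∈ K, ∃ x2 ∈ K, x1 ≠ 1 ∧ x2 ≠ 1 ∧ ∀ y ∈ K,
    ¬ (K ≤ Subgroup.closure {x1, y} ∧ K ≤ Subgroup.closure {x2, y}) := by
  obtain ⟨a, aP, as, am⟩ := bump
  have hs2 := as.conj (aff 0 10)
  rw [aff0, aff0] at hs2
  norm_num at hs2
  have hP2 : aff 0 10 * a * (aff 0 10)⁻¹ ∈ P := by
    have h10 : aff 0 10 ∈ P := aff_mem _ (Dy.nat 10)
    exact P.mul_mem (P.mul_mem h10 aP) (P.inv_mem h10)
  refine ⟨a, ⟨aP, 0, by simpa using as.tr⟩, aff 0 10 * a * (aff 0 10)⁻¹,
    ⟨hP2, 0, by simpa using hs2.tr⟩, ?_, ?_, ?_⟩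
  · intro h
    have h1 := am 0 (by norm_num) (by norm_num)
    rw [h, one_ap] at h1
    exact lt_irrefl _ h1
  · intro h
    have h1 := am 0 (by norm_num) (by norm_num)
    have h2 : (aff 0 10 * a * (aff 0 10)⁻¹) 10 = 10 := by rw [h, one_ap]
    rw [mul_ap, mul_ap, affinv, sub_self, aff0] at h2
    linarith
  · rintro y ⟨yP, b, hb⟩ ⟨hy1, hy2⟩
    obtain ⟨p, hp⟩ := fixed_pt hb
    obtain ⟨f, hfK, hf⟩ := moves p
    rcases le_total p 5 with h | h
    · have h1 : Subgroup.closure {aff 0 10 * a * (aff 0 10)⁻¹, y} ≤ St p := by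
        rw [Subgroup.closure_le]
        intro g hg
        rcases hg with hg | hg
        · rw [hg]
          exact hs2.1 p (by linarith)
        · rw [Set.mem_singleton_iff] at hg
          rw [hg]
          exact hp
      exact hf (h1 (hy2 hfK))
    · have h1 : Subgroup.closure {a, y} ≤ St p := by
        rw [Subgroup.closure_le]
        intro g hg
        rcases hg with hg | hg
        · rw [hg]
          exact as.2 p (by linarith)
        · rw [Set.mem_singleton_iff] at hg
          rw [hg]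
          exact hp
      exact hf (h1 (hy1 hfK))

theorem clo_top (x y : K) :
    Subgroup.closure {x, y} = ⊤ ↔ K ≤ Subgroup.closure {(x : G), (y : G)} := by
  have h1 : (Subgroup.closure {x, y}).map K.subtype = Subgroup.closure {(x : G), (y : G)} := by
    rw [MonoidHom.map_closure, Set.image_pair]
    rfl
  have h2 : (⊤ : Subgroup K).map K.subtype = K := by
    rw [← MonoidHom.range_eq_map, Subgroup.range_subtype]
  constructor
  · intro h
    rw [← h1, h, h2]
  · intro h
    apply Subgroup.map_injective K.subtype_injective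
    rw [h1, h2]
    refine le_antisymm ?_ h
    rw [Subgroup.closure_le]
    intro g hg
    rcases hg with hg | hg
    · rw [hg]; exact x.2
    · rw [Set.mem_singleton_iff] at hg
      rw [hg]; exact y.2

theorem spread_K (k : ℕ) : IsSpread K k ↔ k ≤ 1 := by
  constructor
  · intro h
    by_contra hk
    obtain ⟨x1, h1, x2, h2, n1, n2, hno⟩ := not_two
    obtain ⟨y, hy⟩ := h (fun i => if (i : ℕ) = 0 then ⟨x1, h1⟩ else ⟨x2, h2⟩) (by
      intro i
      by_cases hi : (i : ℕ) = 0
      · rw [if_pos hi]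
        intro hcon
        exact n1 (congrArg Subtype.val hcon)
      · rw [if_neg hi]
        intro hcon
        exact n2 (congrArg Subtype.val hcon))
    have e1 := hy ⟨0, by omega⟩
    have e2 := hy ⟨1, by omega⟩
    rw [if_pos rfl, clo_top] at e1
    rw [if_neg one_ne_zero, clo_top] at e2
    exact hno y y.2 ⟨e1, e2⟩
  · intro hk x hx
    rcases Nat.eq_zero_or_pos k with h | h
    · subst h
      exact ⟨1, fun i => i.elim0⟩
    · have hk1 : k = 1 := by omega
      subst hk1
      have hx0 : ((x 0 : K) : G) ≠ 1 := by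
        intro hcon
        exact hx 0 (Subtype.ext hcon)
      obtain ⟨y, hyK, hy⟩ := one_spread (x 0).2 hx0
      refine ⟨⟨y, hyK⟩, fun i => ?_⟩
      have hi : i = 0 := Subsingleton.elim _ _
      rw [hi, clo_top]
      exact hy _ (Subgroup.subset_closure (by simp)) (Subgroup.subset_closure (by simp))

/-- There is a group of spread exactly one. -/
theorem result : ∃ (G : Type) (_ : Group G),
    spread G = 1 ∧ ∀ k : ℕ, IsSpread G k ↔ k ≤ 1 := by
  refine ⟨K, inferInstance, ?_, spread_K⟩
  apply le_antisymm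
  · refine iSup₂_le fun k hk => ?_
    exact_mod_cast (spread_K k).1 hk
  · exact le_iSup₂_of_le 1 ((spread_K 1).2 le_rfl) (by simp)

end Pool.Agent.Results.MP_317377_al.SpreadOne
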